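import Pool.Agent.W548.MQ.Fin5

/-!
# MP_a9963e_ag, Q2: the induced Pfister map in degree one

`B` is a Dedekind domain with fraction field `L` of characteristic `≠ 2` (a smooth affine curve
`X = Spec B`).  `W L` is the Witt ring, `I L` the ideal of even rank forms, `Wur`, `Iur`, `K1ur` the
unramified groups, and `milnor2 B L : K^1_ur(X)/2 → I_ur(X)/I²_ur(X)`, `a ↦ ⟨1,-a⟩`, is the induced
map of Q2 for `n = 1`.  It is always injective, it is surjective iff `Pic(X)` has no 2-torsion, and
for the circle `x² + y² = 1` over `ℚ` (smooth over `ℚ`) it is not surjective.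
-/

open WithZero IsDedekindDomain

set_option linter.overlappingInstances false

namespace Pool.Agent.Results.MP_a9963e_ag.PfisterMapDegreeOne

open W548.MQ

universe u w

instance circle_isDomain : IsDomain A := t_DOM.1

instance circle_isIntegrallyClosed : IsIntegrallyClosed A := t_IC

instance circle_isDedekindDomain : IsDedekindDomain A where
  toIsDomain := t_DOM.1
  toIsDedekindRing :=
    { toIsNoetherian := t_NOE.1
      toDimensionLEOne := t_NOE.2
      toIsIntegralClosure := inferInstance }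

/-- `1 + x` as a unit of the function field of the circle. -/
lemma one_add_x_ne : algebraMap A (FractionRing A) (1 + x) ≠ 0 := by
  intro h
  have h0 : (1 + x : A) = 0 := by
    apply IsFractionRing.injective A (FractionRing A)
    rw [h, map_zero]
  exact t_NSQ 1 0 (by rw [h0]; simp)

theorem circle_not_surjective : ¬ Function.Surjective (Fin.milnor2 A (FractionRing A)) := by
  have hf : ∀ v : HeightOneSpectrum A,
      Even (ord (v.valuation (FractionRing A)) (Units.mk0 _ one_add_x_ne)) :=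
    fun v => t_EVEN v (FractionRing A) _ rfl
  refine Fin.not_surjective A (FractionRing A) (Units.mk0 _ one_add_x_ne) hf ?_
  intro u c hc
  rw [Units.val_mk0] at hc
  -- `c² = (1 + x)/u` is in `A`, so `c` is in `A`
  have hint : IsIntegral A ((c : FractionRing A)) := by
    refine IsIntegral.of_pow (n := 2) (by norm_num) ?_
    have : (c : FractionRing A) ^ 2 = algebraMap A (FractionRing A) (((u⁻¹ : Aˣ) : A) * (1 + x)) := by
      rw [map_mul, hc, ← mul_assoc, ← map_mul, Units.inv_mul, map_one, one_mul]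
    rw [this]
    exact isIntegral_algebraMap
  obtain ⟨h, hh⟩ := IsIntegrallyClosed.isIntegral_iff.1 hint
  apply t_NSQ u h
  apply IsFractionRing.injective A (FractionRing A)
  rw [hc, map_mul, map_pow, hh]

/-- `x ∈ W_ur(X)`: all second residues of `x` vanish. -/
def IsUnramified (B : Type u) [CommRing B] [IsDedekindDomain B] (L : Type w) [Field L] [Algebra B L]
    [IsFractionRing B L] (z : Fin.W L) : Prop :=
  ∀ (v : HeightOneSpectrum B) (π : Lˣ) (hπ : ord (v.valuation L) π = 1),
    Fin.res (v.valuation L) π hπ z = 0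

/-- `z ∈ I^n_ur(X) = I^n(L) ∩ W_ur(X)`. -/
def InIur (B : Type u) [CommRing B] [IsDedekindDomain B] (L : Type w) [Field L] [Algebra B L]
    [IsFractionRing B L] (n : ℕ) (z : Fin.W L) : Prop :=
  z ∈ (Fin.I L) ^ n ∧ IsUnramified B L z

/-- `a ∈ K^1_{M,ur}(X)`: the order of `a` is zero at every height one prime. -/
def InK1ur (B : Type u) [CommRing B] [IsDedekindDomain B] (L : Type w) [Field L] [Algebra B L]
    [IsFractionRing B L] (a : Lˣ) : Prop :=
  ∀ v : HeightOneSpectrum B, ord (v.valuation L) a = 0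

/-- The map `K^1_{M,ur}(X)/2 → I_ur(X)/I²_ur(X)`, `a ↦ ⟨1,-a⟩`, is defined (values in `I_ur`,
additive modulo `I²_ur`, zero on squares). -/
def Defined (B : Type u) [CommRing B] [IsDedekindDomain B] (L : Type w) [Field L] [Algebra B L]
    [IsFractionRing B L] : Prop :=
  ∀ a b : Lˣ, InK1ur B L a → InK1ur B L b →
    InIur B L 1 (Fin.pf a) ∧ InIur B L 2 (Fin.pf a + Fin.pf b - Fin.pf (a * b)) ∧
    InIur B L 2 (Fin.pf (a ^ 2))

/-- The induced map is injective. -/
def Injective (B : Type u) [CommRing B] [IsDedekindDomain B] (L : Type w) [Field L] [Algebra B L]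
    [IsFractionRing B L] : Prop :=
  ∀ a : Lˣ, InK1ur B L a → InIur B L 2 (Fin.pf a) → ∃ c : Lˣ, InK1ur B L c ∧ a = c ^ 2

/-- The induced map is surjective. -/
def Surjective (B : Type u) [CommRing B] [IsDedekindDomain B] (L : Type w) [Field L] [Algebra B L]
    [IsFractionRing B L] : Prop :=
  ∀ z : Fin.W L, InIur B L 1 z → ∃ a : Lˣ, InK1ur B L a ∧ InIur B L 2 (z - Fin.pf a)

section

variable (B : Type u) [CommRing B] [IsDomain B] [IsDedekindDomain B]
  (L : Type w) [Field L] [Algebra B L] [IsFractionRing B L]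

lemma inIur_iff (n : ℕ) (z : Fin.W L) : InIur B L n z ↔ z ∈ Fin.Iur B L n := Iff.rfl

lemma defined : Defined B L := by
  intro a b ha hb
  have h1 : ∀ a : Lˣ, InK1ur B L a → Fin.pf a ∈ Fin.Iur B L 1 := fun a ha =>
    Fin.pf_mem_Iur a (fun v => by rw [ha v]; exact Even.zero)
  have hab : InK1ur B L (a * b) := (Fin.K1ur B L).mul_mem ha hb
  refine ⟨h1 a ha, ⟨?_, ?_⟩, ⟨?_, ?_⟩⟩
  · rw [Fin.pf_mul]
    have : (Fin.pf a + Fin.pf b - (Fin.pf a + Fin.pf b - Fin.pf a * Fin.pf b) : Fin.W L)
      = Fin.pf a * Fin.pf b := by ring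
    rw [this]; exact Fin.pf_mul_mem _ _
  · exact sub_mem (S := AddSubgroup (Fin.W L)) (H := Fin.Wur B L) (add_mem (h1 a ha).2 (h1 b hb).2) (h1 _ hab).2
  · have : (Fin.pf (a ^ 2) : Fin.W L) = 0 := by
      rw [← one_mul (a ^ 2), Fin.pf_mul_sq, Fin.pf_one]
    rw [this]; exact Ideal.zero_mem _
  · have : (Fin.pf (a ^ 2) : Fin.W L) = 0 := by
      rw [← one_mul (a ^ 2), Fin.pf_mul_sq, Fin.pf_one]
    rw [this]; exact zero_mem (Fin.Wur B L)

lemma injective : Injective B L := by
  intro a ha h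
  have h2 : Fin.pf a - Fin.pf 1 ∈ (Fin.I L) ^ 2 := by rw [Fin.pf_one, sub_zero]; exact h.1
  obtain ⟨c, hc⟩ := Fin.t_DISC2 L a 1 h2
  rw [one_mul] at hc
  refine ⟨c, ?_, hc⟩
  intro v
  have h1 := ha v
  rw [hc, Fin.ord_sq] at h1
  omega

lemma surjective_iff_old : Surjective B L ↔ Function.Surjective (Fin.milnor2 B L) := by
  constructor
  · intro h y
    obtain ⟨p, rfl⟩ := QuotientAddGroup.mk_surjective y
    obtain ⟨a, ha, hz⟩ := h (p : Fin.W L) p.2
    refine ⟨QuotientAddGroup.mk (Additive.ofMul ⟨a, ha⟩), ?_⟩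
    rw [Fin.milnor2_mk, Fin.mk_eq_iff]
    exact hz.1
  · intro h z hz
    obtain ⟨y, hy⟩ := h (QuotientAddGroup.mk ⟨z, hz⟩)
    obtain ⟨a, rfl⟩ := QuotientAddGroup.mk_surjective y
    rw [Fin.milnor2_mk, Fin.mk_eq_iff] at hy
    refine ⟨(Additive.toMul a : Fin.K1ur B L), (Additive.toMul a).2, hy, ?_⟩
    exact sub_mem (S := AddSubgroup (Fin.W L)) (H := Fin.Wur B L) hz.2
      (Fin.pf_mem_Iur _ (fun v => by rw [(Additive.toMul a).2 v]; exact Even.zero)).2

end

/-- **Degree one of Q2.** -/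
theorem result :
    (∀ (B : Type u) [CommRing B] [IsDedekindDomain B]
      (L : Type w) [Field L] [Algebra B L] [IsFractionRing B L],
      Defined B L ∧ Injective B L ∧ (Surjective B L ↔ ∀ z : ClassGroup B, z ^ 2 = 1 → z = 1)) ∧
    (Algebra.Smooth ℚ A ∧ IsDedekindDomain A ∧ ¬ IsField A ∧
      ∀ [IsDedekindDomain A], ¬ Surjective A (FractionRing A)) :=
  ⟨fun B _ _ L _ _ _ => ⟨defined B L, injective B L,
    (surjective_iff_old B L).trans (Fin.milnor2_surjective_iff B L)⟩,
    t_SM, inferInstance, t_DOM.2,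
    fun h => circle_not_surjective ((surjective_iff_old A (FractionRing A)).1 h)⟩

end Pool.Agent.Results.MP_a9963e_ag.PfisterMapDegreeOne
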